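import Mathlib
import Pool.Agent.R713.QuatExtend

/-!
# Invariant maximal nonnegative subspaces with prescribed spectrum, quaternionic case

Let `A` be skew-adjoint for a hermitian form on a finite dimensional right quaternionic space whose
radical is contained in `ker A`, let `N` be an invariant neutral subspace and `S` a c-set which
contains the eigenvalues of `A|N` with nonzero real part.  We add to `N` the root subspaces of the
elements of `S`; the sum is invariant and neutral.  An invariant maximal nonnegative subspace which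
contains it has no other eigenvalues with nonzero real part.
-/

set_option autoImplicit false

namespace Pool.Agent.U955.QN

open Quaternion MulOpposite Pool.Agent.R713

variable {V : Type*} [AddCommGroup V] [Module ℍ[ℝ]ᵐᵒᵖ V]

/-- `μ` is an eigenvalue of the restriction of `A` to `M`: `A x = x μ` for some nonzero `x ∈ M` -/
def Eig (A : V → V) (M : Set V) (μ : ℍ[ℝ]) : Prop := ∃ x ∈ M, x ≠ 0 ∧ A x = op μ • x

/-- the first three properties of a c-set -/
structure PreC (A : V → V) (S : Set ℍ[ℝ]) : Prop where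
  eig : ∀ μ ∈ S, Eig A Set.univ μ
  re_ne : ∀ μ ∈ S, μ.re ≠ 0
  sim : ∀ μ ∈ S, ∀ q : ℍ[ℝ], q ≠ 0 → q⁻¹ * μ * q ∈ S
  neg : ∀ μ ∈ S, -μ ∉ S

/-- a c-set of `A` -/
structure CSet (A : V → V) (S : Set ℍ[ℝ]) : Prop extends PreC A S where
  maximal : ∀ S' : Set ℍ[ℝ], PreC A S' → S ⊆ S' → S' = S

/-! ### Similar quaternions -/

lemma sq_eq (x : ℍ[ℝ]) : x * x = ((2 * x.re : ℝ) : ℍ[ℝ]) * x - ((normSq x : ℝ) : ℍ[ℝ]) := by
  have h1 : x * star x = ((normSq x : ℝ) : ℍ[ℝ]) := Quaternion.self_mul_star x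
  have h2 : x + star x = ((2 * x.re : ℝ) : ℍ[ℝ]) := Quaternion.self_add_star' x
  have h3 : ((2 * x.re : ℝ) : ℍ[ℝ]) * x = x * x + x * star x := by
    rw [Quaternion.coe_commutes, ← h2, mul_add]
  rw [h3, h1, add_sub_cancel_right]

lemma re_conj (μ q : ℍ[ℝ]) (hq : q ≠ 0) : (q⁻¹ * μ * q).re = μ.re := by
  have h : ∀ a b : ℍ[ℝ], (a * b).re = (b * a).re := by
    intro a b
    simp only [Quaternion.re_mul]
    ring
  rw [h, ← mul_assoc, mul_inv_cancel₀ hq, one_mul]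

/-- a pure nonzero quaternion anticommutes with a nonzero quaternion -/
lemma exists_anti (u : ℍ[ℝ]) (hu : u.re = 0) : ∃ q : ℍ[ℝ], q ≠ 0 ∧ u * q = -(q * u) ∨ u = 0 := by
  by_cases h : u.imI = 0 ∧ u.imJ = 0
  · by_cases hk : u.imK = 0
    · refine ⟨0, Or.inr ?_⟩
      ext <;> simp [hu, h.1, h.2, hk]
    · refine ⟨⟨0, 1, 0, 0⟩, Or.inl ⟨?_, ?_⟩⟩
      · intro h0
        have := congrArg QuaternionAlgebra.imI h0
        simp at this
      · ext <;> simp [hu, h.1, h.2]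
  · refine ⟨⟨0, u.imJ, -u.imI, 0⟩, Or.inl ⟨?_, ?_⟩⟩
    · intro h0
      apply h
      have h1 := congrArg QuaternionAlgebra.imI h0
      have h2 := congrArg QuaternionAlgebra.imJ h0
      simp at h1 h2
      exact ⟨h2, h1⟩
    · ext <;> simp [hu] <;> ring

/-- quaternions with the same real part and the same norm are similar -/
lemma exists_conj (a b : ℍ[ℝ]) (h1 : a.re = b.re) (h2 : normSq a = normSq b) :
    ∃ q : ℍ[ℝ], q ≠ 0 ∧ b = q⁻¹ * a * q := by
  -- it is enough to find `q ≠ 0` with `q b = a q`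
  have key : ∃ q : ℍ[ℝ], q ≠ 0 ∧ q * b = a * q := by
    have h3 : a.imI ^ 2 + a.imJ ^ 2 + a.imK ^ 2 = b.imI ^ 2 + b.imJ ^ 2 + b.imK ^ 2 := by
      rw [Quaternion.normSq_def', Quaternion.normSq_def', h1] at h2
      linarith
    by_cases hs : (⟨0, a.imI + b.imI, a.imJ + b.imJ, a.imK + b.imK⟩ : ℍ[ℝ]) = 0
    · have e1 : b.imI = -a.imI := by
        have := congrArg QuaternionAlgebra.imI hs
        simp at this; linarith
      have e2 : b.imJ = -a.imJ := by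
        have := congrArg QuaternionAlgebra.imJ hs
        simp at this; linarith
      have e3 : b.imK = -a.imK := by
        have := congrArg QuaternionAlgebra.imK hs
        simp at this; linarith
      obtain ⟨q, hq | hq⟩ := exists_anti ⟨0, a.imI, a.imJ, a.imK⟩ rfl
      · refine ⟨q, hq.1, ?_⟩
        have ha : a = ((a.re : ℝ) : ℍ[ℝ]) + ⟨0, a.imI, a.imJ, a.imK⟩ := by ext <;> simp
        have hb : b = ((a.re : ℝ) : ℍ[ℝ]) - ⟨0, a.imI, a.imJ, a.imK⟩ := by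
          ext <;> simp [h1, e1, e2, e3]
        rw [hb]
        conv_rhs => rw [ha]
        rw [mul_sub, add_mul, hq.2, Quaternion.coe_commutes]
        abel
      · refine ⟨1, one_ne_zero, ?_⟩
        have f1 := congrArg QuaternionAlgebra.imI hq
        have f2 := congrArg QuaternionAlgebra.imJ hq
        have f3 := congrArg QuaternionAlgebra.imK hq
        simp at f1 f2 f3
        rw [one_mul, mul_one]
        ext <;> simp [h1, e1, e2, e3, f1, f2, f3]
    · refine ⟨_, hs, ?_⟩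
      ext <;> simp [h1] <;> nlinarith [h3]
  obtain ⟨q, hq, h⟩ := key
  exact ⟨q, hq, by rw [mul_assoc, ← h, ← mul_assoc, inv_mul_cancel₀ hq, one_mul]⟩

/-- the value at `ν` of the real polynomial of `μ` -/
noncomputable def pol (μ ν : ℍ[ℝ]) : ℍ[ℝ] :=
  ν * ν - ((2 * μ.re : ℝ) : ℍ[ℝ]) * ν + ((normSq μ : ℝ) : ℍ[ℝ])

lemma pol_self (μ : ℍ[ℝ]) : pol μ μ = 0 := by
  unfold pol; rw [sq_eq]; abel

lemma pol_zero (μ ν : ℍ[ℝ]) (h : pol μ ν = 0) : μ.re = ν.re ∧ normSq μ = normSq ν := by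
  unfold pol at h
  rw [sq_eq] at h
  have h1 := congrArg QuaternionAlgebra.re h
  have h2 := congrArg QuaternionAlgebra.imI h
  have h3 := congrArg QuaternionAlgebra.imJ h
  have h4 := congrArg QuaternionAlgebra.imK h
  simp at h1 h2 h3 h4
  have hre : μ.re = ν.re := by
    by_contra hne
    have hne' : ν.re - μ.re ≠ 0 := fun h => hne (by linarith)
    have g2 : ν.imI = 0 := by
      have : (ν.re - μ.re) * ν.imI = 0 := by linarith
      exact (mul_eq_zero.1 this).resolve_left hne'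
    have g3 : ν.imJ = 0 := by
      have : (ν.re - μ.re) * ν.imJ = 0 := by linarith
      exact (mul_eq_zero.1 this).resolve_left hne'
    have g4 : ν.imK = 0 := by
      have : (ν.re - μ.re) * ν.imK = 0 := by linarith
      exact (mul_eq_zero.1 this).resolve_left hne'
    rw [Quaternion.normSq_def', Quaternion.normSq_def', g2, g3, g4] at h1
    have : (ν.re - μ.re) ^ 2 + μ.imI ^ 2 + μ.imJ ^ 2 + μ.imK ^ 2 = 0 := by linarith
    have : (ν.re - μ.re) ^ 2 = 0 := by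
      nlinarith [sq_nonneg (ν.re - μ.re), sq_nonneg μ.imI, sq_nonneg μ.imJ, sq_nonneg μ.imK]
    exact hne' (pow_eq_zero_iff two_ne_zero |>.1 this)
  refine ⟨hre, ?_⟩
  rw [hre] at h1
  linarith

lemma pol_neg (μ : ℍ[ℝ]) (h : μ.re ≠ 0) : pol μ (-μ) ≠ 0 := by
  intro h0
  have := (pol_zero μ (-μ) h0).1
  simp at this
  exact h (by linarith)

/-! ### The quadratic polynomial of an eigenvalue -/

lemma real_comm (r : ℝ) (c : ℍ[ℝ]ᵐᵒᵖ) (v : V) :
    op (r : ℍ[ℝ]) • (c • v) = c • (op (r : ℍ[ℝ]) • v) := by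
  rw [smul_smul, smul_smul]
  congr 1
  have : c = op (unop c) := (op_unop c).symm
  rw [this, ← op_mul, ← op_mul, Quaternion.coe_commutes]

/-- `A² - 2 re(μ) A + |μ|²` -/
noncomputable def T (A : V →ₗ[ℍ[ℝ]ᵐᵒᵖ] V) (μ : ℍ[ℝ]) : V →ₗ[ℍ[ℝ]ᵐᵒᵖ] V where
  toFun x := A (A x) - op ((2 * μ.re : ℝ) : ℍ[ℝ]) • A x + op ((normSq μ : ℝ) : ℍ[ℝ]) • x
  map_add' x y := by
    simp only [map_add, smul_add]; abel
  map_smul' c x := by
    simp only [map_smul, RingHom.id_apply]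
    rw [real_comm, real_comm, smul_add, smul_sub]

lemma T_apply (A : V →ₗ[ℍ[ℝ]ᵐᵒᵖ] V) (μ : ℍ[ℝ]) (x : V) :
    T A μ x = A (A x) - op ((2 * μ.re : ℝ) : ℍ[ℝ]) • A x + op ((normSq μ : ℝ) : ℍ[ℝ]) • x := rfl

lemma T_eig (A : V →ₗ[ℍ[ℝ]ᵐᵒᵖ] V) (μ ν : ℍ[ℝ]) (x : V) (h : A x = op ν • x) :
    T A μ x = op (pol μ ν) • x := by
  rw [T_apply, h, map_smul, h, smul_smul, smul_smul, ← sub_smul, ← add_smul]
  congr 1
  rw [← op_mul, ← op_mul, ← op_sub, ← op_add]
  unfold pol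
  rw [Quaternion.coe_commutes (2 * μ.re) ν]

lemma T_inv (A : V →ₗ[ℍ[ℝ]ᵐᵒᵖ] V) (μ : ℍ[ℝ]) (M : Submodule ℍ[ℝ]ᵐᵒᵖ V) (hM : ∀ x ∈ M, A x ∈ M) :
    ∀ x ∈ M, T A μ x ∈ M := fun x hx =>
  M.add_mem (M.sub_mem (hM _ (hM _ hx)) (M.smul_mem _ (hM _ hx))) (M.smul_mem _ hx)

lemma T_comm (A : V →ₗ[ℍ[ℝ]ᵐᵒᵖ] V) (μ : ℍ[ℝ]) (x : V) : T A μ (A x) = A (T A μ x) := by
  simp only [T_apply, map_add, map_sub, map_smul]

lemma T_pow_comm (A : V →ₗ[ℍ[ℝ]ᵐᵒᵖ] V) (μ : ℍ[ℝ]) (k : ℕ) (x : V) :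
    (T A μ ^ k) (A x) = A ((T A μ ^ k) x) := by
  induction k generalizing x with
  | zero => simp
  | succ k ih => rw [pow_succ, Module.End.mul_apply, Module.End.mul_apply, T_comm, ih]

lemma T_pow_eig (A : V →ₗ[ℍ[ℝ]ᵐᵒᵖ] V) (μ ν : ℍ[ℝ]) (k : ℕ) (x : V) (h : A x = op ν • x) :
    (T A μ ^ k) x = op ((pol μ ν) ^ k) • x := by
  induction k with
  | zero => simp
  | succ k ih =>
    rw [pow_succ, Module.End.mul_apply, T_eig A μ ν x h, map_smul, ih, smul_smul, ← op_mul,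
      ← pow_succ]

/-- an eigenvector from a vector in the kernel of the quadratic polynomial -/
lemma eig_of_T (A : V →ₗ[ℍ[ℝ]ᵐᵒᵖ] V) (μ : ℍ[ℝ]) (M : Submodule ℍ[ℝ]ᵐᵒᵖ V)
    (hM : ∀ x ∈ M, A x ∈ M) (x : V) (hx : x ∈ M) (hx0 : x ≠ 0) (hT : T A μ x = 0) :
    Eig A M μ := by
  by_cases hy : A x - op (star μ) • x = 0
  · -- `A x = x μ̄`
    have h1 : A x = op (star μ) • x := sub_eq_zero.1 hy
    obtain ⟨q, hq, hc⟩ := exists_conj (star μ) μ (by simp) (by simp)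
    refine ⟨op q • x, M.smul_mem _ hx, ?_, ?_⟩
    · rw [smul_ne_zero_iff]
      exact ⟨by simpa using hq, hx0⟩
    · rw [map_smul, h1, smul_smul, smul_smul, ← op_mul, ← op_mul]
      congr 2
      rw [hc]
      conv_lhs => rw [← hc]
      rw [← mul_assoc, ← mul_assoc, mul_inv_cancel₀ hq, one_mul]
  · refine ⟨A x - op (star μ) • x, M.sub_mem (hM x hx) (M.smul_mem _ hx), hy, ?_⟩
    rw [map_sub, map_smul, smul_sub, smul_smul, ← op_mul]
    rw [T_apply] at hT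
    have e1 : op ((2 * μ.re : ℝ) : ℍ[ℝ]) • A x = op μ • A x + op (star μ) • A x := by
      rw [← add_smul, ← op_add, Quaternion.self_add_star']
    have e2 : star μ * μ = ((normSq μ : ℝ) : ℍ[ℝ]) := Quaternion.star_mul_self μ
    rw [e1] at hT
    rw [e2]
    have : A (A x) - op (star μ) • A x - (op μ • A x - op ((normSq μ : ℝ) : ℍ[ℝ]) • x) = 0 := by
      rw [← hT]; abel
    exact sub_eq_zero.1 this

lemma T_of_eig (A : V →ₗ[ℍ[ℝ]ᵐᵒᵖ] V) (μ : ℍ[ℝ]) (x : V) (h : A x = op μ • x) : T A μ x = 0 := by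
  rw [T_eig A μ μ x h, pol_self, op_zero, zero_smul]

variable {G : V → V → ℍ[ℝ]}

lemma real_star (r : ℝ) : star (r : ℍ[ℝ]) = r := Quaternion.star_coe r

/-- adjointness -/
lemma T_adj (h : QHerm G) (A : V →ₗ[ℍ[ℝ]ᵐᵒᵖ] V) (hA : ∀ x y, G (A x) y = -G x (A y)) (μ : ℍ[ℝ])
    (x y : V) : G (T A (-μ) x) y = G x (T A μ y) := by
  rw [T_apply, T_apply, h.add_left, h.sub_left, h.add_right, h.sub_right, h.smul_left, h.smul_left,
    h.smul_right, h.smul_right, hA, hA, hA, real_star, real_star, Quaternion.coe_commutes,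
    Quaternion.coe_commutes, Quaternion.normSq_neg, Quaternion.re_neg]
  have : ((2 * -μ.re : ℝ) : ℍ[ℝ]) = -((2 * μ.re : ℝ) : ℍ[ℝ]) := by
    rw [← Quaternion.coe_neg]; congr 1; ring
  rw [this, neg_neg, neg_mul_neg]

lemma T_adj' (h : QHerm G) (A : V →ₗ[ℍ[ℝ]ᵐᵒᵖ] V) (hA : ∀ x y, G (A x) y = -G x (A y)) (μ : ℍ[ℝ])
    (x y : V) : G (T A μ x) y = G x (T A (-μ) y) := by
  have := T_adj h A hA (-μ) x y
  rwa [neg_neg] at this

/-- a subspace on which `-μ` is not an eigenvalue is orthogonal to the root subspace of `μ` -/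
lemma ortho [Module.Finite ℍ[ℝ]ᵐᵒᵖ V] (h : QHerm G) (A : V →ₗ[ℍ[ℝ]ᵐᵒᵖ] V)
    (hA : ∀ x y, G (A x) y = -G x (A y)) (μ : ℍ[ℝ]) (M : Submodule ℍ[ℝ]ᵐᵒᵖ V)
    (hM : ∀ x ∈ M, A x ∈ M) (hμ : ¬ Eig A M (-μ)) (k : ℕ) :
    ∀ w, (T A μ ^ k) w = 0 → ∀ m ∈ M, G m w = 0 := by
  have hinj : Function.Injective ((T A (-μ)).restrict (T_inv A (-μ) M hM)) := by
    rw [← LinearMap.ker_eq_bot, LinearMap.ker_eq_bot']
    rintro ⟨x, hx⟩ hx0
    by_contra hne
    have hne' : x ≠ 0 := fun h0 => hne (by ext; exact h0)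
    have hT : T A (-μ) x = 0 := by
      have := congrArg Subtype.val hx0
      simpa using this
    exact hμ (eig_of_T A (-μ) M hM x hx hne' hT)
  have hsurj : Function.Surjective ((T A (-μ)).restrict (T_inv A (-μ) M hM)) :=
    LinearMap.injective_iff_surjective.1 hinj
  induction k with
  | zero =>
    intro w hw m _
    have : w = 0 := by simpa using hw
    rw [this, h.zero_right]
  | succ k ih =>
    intro w hw m hm
    obtain ⟨⟨m', hm'⟩, he⟩ := hsurj ⟨m, hm⟩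
    have he' : T A (-μ) m' = m := congrArg Subtype.val he
    rw [← he', T_adj h A hA]
    refine ih (T A μ w) ?_ m' hm'
    rw [pow_succ, Module.End.mul_apply] at hw
    exact hw

/-- maximality of a c-set -/
lemma CSet.neg_mem {A : V →ₗ[ℍ[ℝ]ᵐᵒᵖ] V} {S : Set ℍ[ℝ]} (hS : CSet A S) (l : ℍ[ℝ])
    (hl : Eig A Set.univ l) (hre : l.re ≠ 0) (hlS : l ∉ S) : -l ∈ S := by
  by_contra hneg
  have hc : ∀ (q x : ℍ[ℝ]), q ≠ 0 → x = q⁻¹ * l * q → l = q * x * q⁻¹ := by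
    intro q x hq hx
    rw [hx, ← mul_assoc, ← mul_assoc, mul_inv_cancel₀ hq, one_mul, mul_assoc, mul_inv_cancel₀ hq,
      mul_one]
  have hsim : ∀ μ ∈ S, ∀ q : ℍ[ℝ], q ≠ 0 → q * μ * q⁻¹ ∈ S := by
    intro μ hμ q hq
    have := hS.sim μ hμ q⁻¹ (inv_ne_zero hq)
    rwa [inv_inv] at this
  have hpre : PreC A (S ∪ {x | ∃ q : ℍ[ℝ], q ≠ 0 ∧ x = q⁻¹ * l * q}) := by
    refine ⟨?_, ?_, ?_, ?_⟩
    · rintro μ (hμ | ⟨q, hq, rfl⟩)
      · exact hS.eig μ hμ
      · obtain ⟨x, -, hx0, hx⟩ := hl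
        refine ⟨op q • x, trivial, ?_, ?_⟩
        · rw [smul_ne_zero_iff]
          exact ⟨by simpa using hq, hx0⟩
        · rw [map_smul, hx, smul_smul, smul_smul, ← op_mul, ← op_mul]
          congr 2
          rw [← mul_assoc, ← mul_assoc, mul_inv_cancel₀ hq, one_mul]
    · rintro μ (hμ | ⟨q, hq, rfl⟩)
      · exact hS.re_ne μ hμ
      · rw [re_conj _ _ hq]; exact hre
    · rintro μ (hμ | ⟨q, hq, rfl⟩) p hp
      · exact Or.inl (hS.sim μ hμ p hp)
      · refine Or.inr ⟨q * p, mul_ne_zero hq hp, ?_⟩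
        rw [mul_inv_rev]
        simp only [mul_assoc]
    · rintro μ (hμ | ⟨q, hq, hqe⟩) hneg'
      · rcases hneg' with hn | ⟨q, hq, hqe⟩
        · exact hS.neg μ hμ hn
        · apply hneg
          have h1 := hc q (-μ) hq hqe
          rw [h1, mul_neg, neg_mul, neg_neg]
          exact hsim μ hμ q hq
      · rcases hneg' with hn | ⟨p, hp, hpe⟩
        · apply hneg
          have h1 := hc q μ hq hqe
          rw [h1, ← neg_mul, ← mul_neg]
          exact hsim (-μ) hn q hq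
        · have h1 : μ.re = l.re := by rw [hqe, re_conj _ _ hq]
          have h2 : (-μ).re = l.re := by rw [hpe, re_conj _ _ hp]
          rw [Quaternion.re_neg, h1] at h2
          exact hre (by linarith)
  have hmax := hS.maximal _ hpre Set.subset_union_left
  apply hlS
  rw [← hmax]
  exact Or.inr ⟨1, one_ne_zero, by simp⟩

end Pool.Agent.U955.QN
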