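import Mathlib
import Pool.Agent.U955.QN.Cset

/-!
# Invariant maximal nonnegative subspaces with prescribed spectrum, quaternionic case: the theorem
-/

set_option autoImplicit false

namespace Pool.Agent.U955.QN

open Quaternion MulOpposite Pool.Agent.R713

variable {V : Type*} [AddCommGroup V] [Module ℍ[ℝ]ᵐᵒᵖ V] {G : V → V → ℍ[ℝ]}

/-- invariant neutral subspaces containing `N` whose eigenvalues with nonzero real part are in `S` -/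
structure Fam (A : V →ₗ[ℍ[ℝ]ᵐᵒᵖ] V) (G : V → V → ℍ[ℝ]) (N : Submodule ℍ[ℝ]ᵐᵒᵖ V) (S : Set ℍ[ℝ])
    (M : Submodule ℍ[ℝ]ᵐᵒᵖ V) : Prop where
  le : N ≤ M
  inv : ∀ x ∈ M, A x ∈ M
  neu : ∀ x ∈ M, ∀ y ∈ M, G x y = 0
  spec : ∀ μ : ℍ[ℝ], μ.re ≠ 0 → Eig A M μ → μ ∈ S

lemma neg_re_ne {μ : ℍ[ℝ]} (h : μ.re ≠ 0) : (-μ).re ≠ 0 := by
  rw [Quaternion.re_neg]; exact neg_ne_zero.2 h

lemma T_pow_inv (A : V →ₗ[ℍ[ℝ]ᵐᵒᵖ] V) (μ : ℍ[ℝ]) (M : Submodule ℍ[ℝ]ᵐᵒᵖ V)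
    (hM : ∀ x ∈ M, A x ∈ M) (k : ℕ) : ∀ x ∈ M, (T A μ ^ k) x ∈ M := by
  induction k with
  | zero => intro x hx; simpa using hx
  | succ k ih =>
    intro x hx
    rw [pow_succ, Module.End.mul_apply]
    exact ih _ (T_inv A μ M hM x hx)

/-- the root subspaces of the elements of the c-set can be added -/
lemma Fam.add [Module.Finite ℍ[ℝ]ᵐᵒᵖ V] {A : V →ₗ[ℍ[ℝ]ᵐᵒᵖ] V} {N M : Submodule ℍ[ℝ]ᵐᵒᵖ V}
    {S : Set ℍ[ℝ]} (hF : Fam A G N S M) (h : QHerm G) (hA : ∀ x y, G (A x) y = -G x (A y))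
    (hS : PreC A S) (μ : ℍ[ℝ]) (hμ : μ ∈ S) (k : ℕ) :
    Fam A G N S (M ⊔ LinearMap.ker (T A μ ^ k)) := by
  have hre := hS.re_ne μ hμ
  have hKinv : ∀ x ∈ LinearMap.ker (T A μ ^ k), A x ∈ LinearMap.ker (T A μ ^ k) := by
    intro x hx
    rw [LinearMap.mem_ker] at hx ⊢
    rw [T_pow_comm, hx, map_zero]
  have hM1 : ¬ Eig A M (-μ) := fun he => hS.neg μ hμ (hF.spec _ (neg_re_ne hre) he)
  have hK1 : ¬ Eig A (LinearMap.ker (T A μ ^ k)) (-μ) := by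
    rintro ⟨x, hx, hx0, hxe⟩
    have h1 : (T A μ ^ k) x = 0 := hx
    rw [T_pow_eig A μ (-μ) k x hxe, smul_eq_zero] at h1
    rcases h1 with h1 | h1
    · exact pow_ne_zero k (pol_neg μ hre) (by simpa using h1)
    · exact hx0 h1
  have o1 : ∀ w ∈ LinearMap.ker (T A μ ^ k), ∀ m ∈ M, G m w = 0 := fun w hw =>
    ortho h A hA μ M hF.inv hM1 k w hw
  have o2 : ∀ w ∈ LinearMap.ker (T A μ ^ k), ∀ m ∈ LinearMap.ker (T A μ ^ k), G m w = 0 :=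
    fun w hw => ortho h A hA μ _ hKinv hK1 k w hw
  refine ⟨hF.le.trans le_sup_left, ?_, ?_, ?_⟩
  · intro x hx
    obtain ⟨a, ha, b, hb, rfl⟩ := Submodule.mem_sup.1 hx
    rw [map_add]
    exact Submodule.add_mem_sup (hF.inv a ha) (hKinv b hb)
  · intro x hx y hy
    obtain ⟨a, ha, b, hb, rfl⟩ := Submodule.mem_sup.1 hx
    obtain ⟨a', ha', b', hb', rfl⟩ := Submodule.mem_sup.1 hy
    rw [h.add_left, h.add_right, h.add_right, hF.neu a ha a' ha', o1 b' hb' a ha, o2 b' hb' b hb,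
      h.symm a' b, o1 b hb a' ha', star_zero]
    simp
  · rintro l hl ⟨x, hx, hx0, hxe⟩
    obtain ⟨a, ha, b, hb, hab⟩ := Submodule.mem_sup.1 hx
    have h1 : (T A μ ^ k) x ∈ M := by
      rw [← hab, map_add, (show (T A μ ^ k) b = 0 from hb), add_zero]
      exact T_pow_inv A μ M hF.inv k a ha
    by_cases hp : pol μ l = 0
    · obtain ⟨e1, e2⟩ := pol_zero μ l hp
      obtain ⟨q, hq, hc⟩ := exists_conj μ l e1 e2
      rw [hc]
      exact hS.sim μ hμ q hq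
    · refine hF.spec l hl ⟨x, ?_, hx0, hxe⟩
      rw [T_pow_eig A μ l k x hxe] at h1
      have h2 := M.smul_mem (op (((pol μ l) ^ k)⁻¹)) h1
      rw [smul_smul, ← op_mul, mul_inv_cancel₀ (pow_ne_zero k hp), op_one, one_smul] at h2
      exact h2

theorem extend_cset [Module ℝ V] [IsScalarTower ℝ ℍ[ℝ]ᵐᵒᵖ V] [FiniteDimensional ℝ V]
    [Module.Finite ℍ[ℝ]ᵐᵒᵖ V] (h : QHerm G) (A : V →ₗ[ℍ[ℝ]ᵐᵒᵖ] V)
    (hA : ∀ x y, G (A x) y = -G x (A y)) (hrad : ∀ x, (∀ y, G x y = 0) → A x = 0)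
    (N : Submodule ℍ[ℝ]ᵐᵒᵖ V) (hN : ∀ x ∈ N, A x ∈ N) (hneu : ∀ x ∈ N, ∀ y ∈ N, G x y = 0)
    (S : Set ℍ[ℝ]) (hS : CSet A S) (hS0 : ∀ μ : ℍ[ℝ], μ.re ≠ 0 → Eig A N μ → μ ∈ S) :
    ∃ L : Submodule ℍ[ℝ]ᵐᵒᵖ V, N ≤ L ∧ (∀ x ∈ L, A x ∈ L) ∧ QNonneg G L ∧
      (∀ M : Submodule ℍ[ℝ]ᵐᵒᵖ V, L ≤ M → QNonneg G M → M = L) ∧
      ∀ μ : ℍ[ℝ], (Eig A L μ ∧ μ.re ≠ 0) ↔ μ ∈ S := by
  obtain ⟨M, hM, hmax⟩ := set_has_maximal_iff_noetherian.2 (inferInstance : IsNoetherian ℍ[ℝ]ᵐᵒᵖ V)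
    {M | Fam A G N S M} ⟨N, le_rfl, hN, hneu, hS0⟩
  have hM' : Fam A G N S M := hM
  have hroot : ∀ μ ∈ S, ∀ k : ℕ, LinearMap.ker (T A μ ^ k) ≤ M := by
    intro μ hμ k
    have h1 := hmax _ (hM'.add h hA hS.toPreC μ hμ k)
    have h2 : M ⊔ LinearMap.ker (T A μ ^ k) = M := by
      by_contra hne
      exact h1 (lt_of_le_of_ne le_sup_left (Ne.symm hne))
    rw [← h2]; exact le_sup_right
  obtain ⟨L, h1, h2, h3, h4⟩ := extend_nonneg h A hA M hM'.inv hM'.neu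
  refine ⟨L, hM'.le.trans h1, h2, h3, h4, fun l => ⟨?_, ?_⟩⟩
  · rintro ⟨⟨x, hx, hx0, hxe⟩, hl⟩
    by_contra hlS
    have hneg : -l ∈ S := hS.neg_mem l ⟨x, trivial, hx0, hxe⟩ hl hlS
    have hg : (G x x).re = 0 := by
      have e1 := hA x x
      rw [hxe, h.smul_left, h.smul_right, h.real x, ← Quaternion.coe_commutes] at e1
      have e2 := congrArg QuaternionAlgebra.re e1
      simp at e2
      have e3 : l.re * (G x x).re = 0 := by linarith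
      exact (mul_eq_zero.1 e3).resolve_left hl
    have hort : ∀ m ∈ L, G x m = 0 := fun m hm => h.cs h3 hx hm hg
    have hall : ∀ y, G x y = 0 := by
      intro y
      obtain ⟨n, hn1, hn⟩ := ((Filter.eventually_ge_atTop 1).and
        (LinearMap.eventually_isCompl_ker_pow_range_pow (T A (-l)))).exists
      have hy : y ∈ LinearMap.ker (T A (-l) ^ n) ⊔ LinearMap.range (T A (-l) ^ n) := by
        rw [hn.sup_eq_top]; trivial
      obtain ⟨a, ha, b, hb, rfl⟩ := Submodule.mem_sup.1 hy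
      obtain ⟨c, rfl⟩ := hb
      obtain ⟨n, rfl⟩ : ∃ n', n = n' + 1 := ⟨n - 1, by omega⟩
      rw [h.add_right, hort a (h1 (hroot _ hneg _ ha)), pow_succ', Module.End.mul_apply,
        ← T_adj' h A hA, T_of_eig A l x hxe, h.zero_left, add_zero]
    have h0 := hrad x hall
    rw [hxe, smul_eq_zero] at h0
    rcases h0 with h0 | h0
    · have : l = 0 := by simpa using h0
      rw [this] at hl
      simp at hl
    · exact hx0 h0
  · intro hl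
    refine ⟨?_, hS.re_ne l hl⟩
    obtain ⟨x, -, hx0, hxe⟩ := hS.eig l hl
    refine ⟨x, h1 (hroot l hl 1 ?_), hx0, hxe⟩
    rw [LinearMap.mem_ker, pow_one]
    exact T_of_eig A l x hxe

end Pool.Agent.U955.QN
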